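import Pool.Agent.Run7.h385.PO.Stm

/-!
# Project PO: pieces `COEF`, `SHIFT`, `RARE`, `SPLIT`
-/

set_option autoImplicit false

namespace Pool.Agent.Run7.h416.PO

open Finset hiding box
open Pool.Agent.Run7.h385.PO

/-- Piece `COEF`. -/
theorem t_COEF : S_COEF := by
  intro d k n N hN A hA
  classical
  have key : ∀ A : Finset (Fin k), ∀ j : ℕ,
      |(∏ i ∈ A, (Polynomial.X - Polynomial.C (n i : ℤ))).coeff j| ≤ ((N : ℤ) + 1) ^ A.card := by
    intro A
    induction A using Finset.induction_on with
    | empty =>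
      intro j
      simp only [prod_empty, card_empty, pow_zero, Polynomial.coeff_one]
      split_ifs <;> simp
    | insert a s ha ih =>
      intro j
      rw [prod_insert ha, card_insert_of_notMem ha, sub_mul, Polynomial.coeff_sub,
        Polynomial.coeff_C_mul, pow_succ]
      have h1 : |(Polynomial.X * ∏ i ∈ s, (Polynomial.X - Polynomial.C (n i : ℤ))).coeff j| ≤
          ((N : ℤ) + 1) ^ s.card := by
        rcases j with _ | j
        · rw [Polynomial.coeff_zero_eq_eval_zero]
          simp only [Polynomial.eval_mul, Polynomial.eval_X, zero_mul, abs_zero]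
          positivity
        · rw [Polynomial.coeff_X_mul]; exact ih j
      have h2 : |(n a : ℤ) * (∏ i ∈ s, (Polynomial.X - Polynomial.C (n i : ℤ))).coeff j| ≤
          (N : ℤ) * ((N : ℤ) + 1) ^ s.card := by
        rw [abs_mul]
        refine mul_le_mul ?_ (ih j) (abs_nonneg _) (by positivity)
        rw [abs_of_nonneg (by positivity)]
        exact_mod_cast hN a
      calc _ ≤ _ := abs_sub _ _
        _ ≤ ((N : ℤ) + 1) ^ s.card + (N : ℤ) * ((N : ℤ) + 1) ^ s.card := add_le_add h1 h2
        _ = _ := by ring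
  have hdeg : (∏ i ∈ A, (Polynomial.X - Polynomial.C (n i : ℤ))).natDegree < d := by
    rw [Polynomial.natDegree_prod_of_monic _ _ (fun i _ => Polynomial.monic_X_sub_C _)]
    simp only [Polynomial.natDegree_X_sub_C, sum_const, smul_eq_mul, mul_one]
    exact hA
  refine ⟨fun j => (∏ i ∈ A, (Polynomial.X - Polynomial.C (n i : ℤ))).coeff j, fun x => ?_,
    fun j => ?_⟩
  · have h1 := Polynomial.eval_eq_sum_range' hdeg x
    have h2 := Fin.sum_univ_eq_sum_range
      (fun j => (∏ i ∈ A, (Polynomial.X - Polynomial.C (n i : ℤ))).coeff j * x ^ j) d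
    refine h2.trans (h1.symm.trans ?_)
    rw [Polynomial.eval_prod]
    simp
  · refine (key A j).trans ?_
    exact pow_le_pow_right₀ (by omega) hA.le

/-- few points of the box leave the box -/
lemma leave {d : ℕ} (Y : Fin d → ℕ) (v : Fin d → ℤ) (H : ℝ) (hv : ∀ j, |(v j : ℝ)| ≤ H * Y j) :
    (((box Y).filter (fun t => t + v ∉ box Y)).card : ℝ) ≤ d * H * ∏ j, (Y j : ℝ) := by
  classical
  have h1 : (box Y).filter (fun t => t + v ∉ box Y) ⊆
      univ.biUnion fun j => Fintype.piFinset (Function.update (fun i => Ico (0 : ℤ) (Y i)) j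
        ((Ico (0 : ℤ) (Y j)).filter fun x => x + v j ∉ Ico (0 : ℤ) (Y j))) := by
    intro t ht
    rw [mem_filter] at ht
    obtain ⟨h2, h3⟩ := ht
    unfold box at h2 h3
    rw [Fintype.mem_piFinset] at h2 h3
    push Not at h3
    obtain ⟨j, hj⟩ := h3
    rw [mem_biUnion]
    refine ⟨j, mem_univ _, ?_⟩
    rw [Fintype.mem_piFinset]
    intro i
    by_cases hi : i = j
    · subst hi
      rw [Function.update_self, mem_filter]
      exact ⟨h2 i, hj⟩
    · rw [Function.update_of_ne hi]; exact h2 i
  have h2 : ∀ j, (((Fintype.piFinset (Function.update (fun i => Ico (0 : ℤ) (Y i)) j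
        ((Ico (0 : ℤ) (Y j)).filter fun x => x + v j ∉ Ico (0 : ℤ) (Y j)))).card : ℕ) : ℝ) ≤
      H * ∏ j, (Y j : ℝ) := by
    intro j
    have h3 : ((Ico (0 : ℤ) (Y j)).filter fun x => x + v j ∉ Ico (0 : ℤ) (Y j)).card ≤ (v j).natAbs := by
      rcases le_total 0 (v j) with h4 | h4
      · have h5 : ((Ico (0 : ℤ) (Y j)).filter fun x => x + v j ∉ Ico (0 : ℤ) (Y j)) ⊆
            Ico ((Y j : ℤ) - v j) (Y j) := by
          intro x hx
          simp only [mem_filter, mem_Ico, not_and, not_lt] at hx ⊢
          have := hx.2 (by omega)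
          omega
        refine (card_le_card h5).trans ?_
        rw [Int.card_Ico]; omega
      · have h5 : ((Ico (0 : ℤ) (Y j)).filter fun x => x + v j ∉ Ico (0 : ℤ) (Y j)) ⊆
            Ico (0 : ℤ) (-v j) := by
          intro x hx
          simp only [mem_filter, mem_Ico, not_and, not_lt] at hx ⊢
          by_contra hcon
          have := hx.2 (by omega)
          omega
        refine (card_le_card h5).trans ?_
        rw [Int.card_Ico]; omega
    rw [Fintype.card_piFinset, Nat.cast_prod, ← mul_prod_erase univ _ (mem_univ j),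
      ← mul_prod_erase univ (fun j => (Y j : ℝ)) (mem_univ j), ← mul_assoc]
    refine mul_le_mul ?_ ?_ (by positivity) ((abs_nonneg _).trans (hv j))
    · rw [Function.update_self]
      refine le_trans ?_ (hv j)
      have h6 : |(v j : ℝ)| = ((v j).natAbs : ℝ) := by
        rw [Nat.cast_natAbs, Int.cast_abs]
      rw [h6]; exact_mod_cast h3
    · apply le_of_eq
      refine prod_congr rfl fun i hi => ?_
      rw [Function.update_of_ne (ne_of_mem_erase hi), Int.card_Ico]
      simp
  calc (((box Y).filter (fun t => t + v ∉ box Y)).card : ℝ)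
      ≤ ((∑ j : Fin d, (Fintype.piFinset (Function.update (fun i => Ico (0 : ℤ) (Y i)) j
        ((Ico (0 : ℤ) (Y j)).filter fun x => x + v j ∉ Ico (0 : ℤ) (Y j)))).card : ℕ) : ℝ) := by
        exact_mod_cast (card_le_card h1).trans card_biUnion_le
    _ ≤ ∑ j : Fin d, H * ∏ j, (Y j : ℝ) := by
        rw [Nat.cast_sum]; exact sum_le_sum fun j _ => h2 j
    _ = _ := by rw [sum_const, card_univ, Fintype.card_fin, nsmul_eq_mul, mul_assoc]

/-- Piece `SHIFT`. -/
theorem t_SHIFT : S_SHIFT := by
  intro d Y v G R H hR hH hH1 hv hG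
  classical
  have hG1 : ∀ t ∈ box Y, |G t| ≤ R := by
    intro t ht
    unfold box at ht
    rw [Fintype.mem_piFinset] at ht
    refine hG t fun j => ?_
    have := ht j
    rw [mem_Ico] at this
    rw [abs_of_nonneg this.1]; omega
  have hG2 : ∀ t ∈ box Y, |G (t + v)| ≤ R := by
    intro t ht
    unfold box at ht
    rw [Fintype.mem_piFinset] at ht
    refine hG _ fun j => ?_
    have h1 := ht j
    rw [mem_Ico] at h1
    have h2 : |v j| ≤ (Y j : ℤ) := by
      have h3 : |(v j : ℝ)| ≤ Y j := (hv j).trans (by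
        have := mul_le_mul_of_nonneg_right hH1 (Nat.cast_nonneg (Y j) : (0 : ℝ) ≤ Y j)
        simpa using this)
      exact_mod_cast h3
    have h4 := abs_le.1 h2
    rw [Pi.add_apply, abs_le]
    omega
  have e1 := sum_filter_add_sum_filter_not (box Y) (fun t => t + v ∈ box Y) (fun t => G (t + v))
  have e2 := sum_filter_add_sum_filter_not (box Y) (fun t => t + (-v) ∈ box Y) (fun t => G t)
  have e3 : ∑ t ∈ (box Y).filter (fun t => t + v ∈ box Y), G (t + v) =
      ∑ t ∈ (box Y).filter (fun t => t + (-v) ∈ box Y), G t := by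
    refine sum_nbij' (fun t => t + v) (fun t => t + (-v)) ?_ ?_ ?_ ?_ ?_
    · intro t ht
      rw [mem_filter] at ht ⊢
      refine ⟨ht.2, ?_⟩
      rw [add_neg_cancel_right]; exact ht.1
    · intro t ht
      rw [mem_filter] at ht ⊢
      refine ⟨ht.2, ?_⟩
      rw [neg_add_cancel_right]; exact ht.1
    · intro t _; exact add_neg_cancel_right t v
    · intro t _; exact neg_add_cancel_right t v
    · intro t _; rfl
  have b1 : |∑ t ∈ (box Y).filter (fun t => ¬ t + v ∈ box Y), G (t + v)| ≤
      d * H * (∏ j, (Y j : ℝ)) * R := by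
    refine (abs_sum_le_sum_abs _ _).trans ?_
    refine (sum_le_card_nsmul _ _ R fun t ht => hG2 t (mem_of_mem_filter t ht)).trans ?_
    rw [nsmul_eq_mul]
    exact mul_le_mul_of_nonneg_right (leave Y v H hv) hR
  have b2 : |∑ t ∈ (box Y).filter (fun t => ¬ t + (-v) ∈ box Y), G t| ≤
      d * H * (∏ j, (Y j : ℝ)) * R := by
    refine (abs_sum_le_sum_abs _ _).trans ?_
    refine (sum_le_card_nsmul _ _ R fun t ht => hG1 t (mem_of_mem_filter t ht)).trans ?_
    rw [nsmul_eq_mul]
    refine mul_le_mul_of_nonneg_right (leave Y (-v) H fun j => ?_) hR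
    rw [Pi.neg_apply, Int.cast_neg, abs_neg]; exact hv j
  rw [← e1, ← e2, e3, add_sub_add_left_eq_sub]
  refine (abs_sub _ _).trans ((add_le_add b1 b2).trans (le_of_eq ?_))
  ring

/-- Piece `RARE`. -/
theorem t_RARE : S_RARE := by
  intro d hd Y W hW n u Bad
  classical
  let z : Fin d := ⟨0, hd⟩
  have h1 : ((box Y).filter (fun t => u + ev W t n ∈ Bad)).card ≤
      (Bad ×ˢ Fintype.piFinset (Function.update (fun i => Ico (0 : ℤ) (Y i)) z {0})).card := by
    refine card_le_card_of_injOn (fun t => (u + ev W t n, Function.update t z 0)) ?_ ?_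
    · intro t ht
      rw [mem_coe, mem_filter] at ht
      rw [mem_coe, mem_product]
      refine ⟨ht.2, ?_⟩
      rw [Fintype.mem_piFinset]
      intro i
      by_cases hi : i = z
      · subst hi; simp
      · show Function.update t z 0 i ∈ Function.update (fun i => Ico (0 : ℤ) (Y i)) z {0} i
        rw [Function.update_of_ne hi, Function.update_of_ne hi]
        have := ht.1
        unfold box at this
        rw [Fintype.mem_piFinset] at this
        exact this i
    · intro t _ t' _ htt
      simp only [Prod.mk.injEq] at htt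
      obtain ⟨e1, e2⟩ := htt
      have e3 : ∀ i, i ≠ z → t i = t' i := by
        intro i hi
        have := congrFun e2 i
        rwa [Function.update_of_ne hi, Function.update_of_ne hi] at this
      have e4 : ∑ j : Fin d, t j * (n : ℤ) ^ (j : ℕ) = ∑ j : Fin d, t' j * (n : ℤ) ^ (j : ℕ) := by
        have := add_left_cancel e1
        unfold ev at this
        exact mul_left_cancel₀ (by positivity) this
      rw [← add_sum_erase univ _ (mem_univ z), ← add_sum_erase univ (fun j => t' j * _) (mem_univ z)] at e4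
      have e5 : ∑ x ∈ univ.erase z, t x * (n : ℤ) ^ (x : ℕ) = ∑ x ∈ univ.erase z, t' x * (n : ℤ) ^ (x : ℕ) :=
        sum_congr rfl fun i hi => by rw [e3 i (ne_of_mem_erase hi)]
      rw [e5] at e4
      have e6 := add_right_cancel e4
      simp only [z, pow_zero, mul_one] at e6
      funext i
      by_cases hi : i = z
      · rw [hi]; exact e6
      · exact e3 i hi
  rw [card_product, Fintype.card_piFinset] at h1
  have h2 : (∏ i, (Function.update (fun i => Ico (0 : ℤ) (Y i)) z {0} i).card) =
      ∏ i ∈ univ.erase z, Y i := by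
    rw [← mul_prod_erase univ _ (mem_univ z), Function.update_self, card_singleton, one_mul]
    refine prod_congr rfl fun i hi => ?_
    rw [Function.update_of_ne (ne_of_mem_erase hi), Int.card_Ico]; simp
  rw [h2] at h1
  have h3 : ((((box Y).filter (fun t => u + ev W t n ∈ Bad)).card : ℕ) : ℝ) ≤
      Bad.card * ∏ i ∈ univ.erase z, (Y i : ℝ) := by exact_mod_cast h1
  rw [← mul_prod_erase univ (fun j => (Y j : ℝ)) (mem_univ z)]
  calc _ ≤ _ := mul_le_mul_of_nonneg_right h3 (Nat.cast_nonneg (Y z))
    _ = _ := by ring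

/-- Piece `SPLIT`. -/
theorem t_SPLIT : S_SPLIT := by
  intro g d W hW a Y Φ
  classical
  rw [sum_sigma']
  symm
  have hW' : (0 : ℤ) < W := by exact_mod_cast hW
  refine sum_bij' (fun p _ => fun l j => a l j + p.1 l j + W * p.2 l j)
    (fun c _ => ⟨fun l j => (c l j - a l j) % W, fun l j => (c l j - a l j) / W⟩) ?_ ?_ ?_ ?_ ?_
  · rintro ⟨r, t⟩ hp
    rw [mem_sigma] at hp
    obtain ⟨hr, ht⟩ := hp
    rw [Fintype.mem_piFinset]
    intro l
    rw [Fintype.mem_piFinset]
    intro j
    rw [Fintype.mem_piFinset] at hr ht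
    have h1 := hr l
    have h2 := ht l
    unfold box at h1 h2
    rw [Fintype.mem_piFinset] at h1 h2
    have h3 := h1 j
    have h4 := h2 j
    rw [mem_Ico] at h3 h4 ⊢
    simp only at h3 h4 ⊢
    obtain ⟨h5, h6⟩ := h3
    obtain ⟨h7, h8⟩ := h4
    lift r l j to ℕ using h5 with rn hrn
    lift t l j to ℕ using h7 with tn htn
    rw [Int.toNat_natCast] at h8
    have h9 : tn < (Y l j + W - 1 - rn) / W := by exact_mod_cast h8
    have h10 : rn < W := by exact_mod_cast h6
    have h11 : (tn + 1) * W ≤ Y l j + W - 1 - rn := (Nat.le_div_iff_mul_le (by omega)).1 h9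
    have h12 : rn + W * tn < Y l j := by
      have : (tn + 1) * W = W * tn + W := by ring
      omega
    have h13 : (rn : ℤ) + W * tn < Y l j := by exact_mod_cast h12
    have h14 : (0 : ℤ) ≤ (rn : ℤ) + W * tn := by positivity
    constructor <;> linarith
  · intro c hc
    rw [Fintype.mem_piFinset] at hc
    rw [mem_sigma]
    have hc' : ∀ l j, a l j ≤ c l j ∧ c l j < a l j + Y l j := by
      intro l j
      have h1 := hc l
      rw [Fintype.mem_piFinset] at h1
      have h2 := h1 j
      rwa [mem_Ico] at h2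
    constructor
    · rw [Fintype.mem_piFinset]
      intro l
      unfold box
      rw [Fintype.mem_piFinset]
      intro j
      rw [mem_Ico]
      exact ⟨Int.emod_nonneg _ hW'.ne', Int.emod_lt_of_pos _ hW'⟩
    · rw [Fintype.mem_piFinset]
      intro l
      unfold box
      rw [Fintype.mem_piFinset]
      intro j
      rw [mem_Ico]
      obtain ⟨h1, h2⟩ := hc' l j
      obtain ⟨x, hx⟩ : ∃ x : ℕ, c l j - a l j = x := ⟨(c l j - a l j).toNat, by omega⟩
      simp only [hx]
      refine ⟨by positivity, ?_⟩
      have h3 : x < Y l j := by omega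
      have h4 : ((x : ℤ) % W).toNat = x % W := by
        rw [← Int.natCast_mod, Int.toNat_natCast]
      rw [h4]
      have h5 : x / W < (Y l j + W - 1 - x % W) / W := by
        rw [← Nat.succ_le_iff, Nat.le_div_iff_mul_le (by omega)]
        have h6 := Nat.div_add_mod x W
        have h7 : (x / W).succ * W = W * (x / W) + W := by
          rw [Nat.succ_mul, Nat.mul_comm]
        have h8 := Nat.mod_lt x (show W > 0 by omega)
        omega
      exact_mod_cast h5
  · rintro ⟨r, t⟩ hp
    rw [mem_sigma] at hp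
    obtain ⟨hr, ht⟩ := hp
    rw [Fintype.mem_piFinset] at hr
    have hr' : ∀ l j, 0 ≤ r l j ∧ r l j < W := by
      intro l j
      have h1 := hr l
      unfold box at h1
      rw [Fintype.mem_piFinset] at h1
      have h2 := h1 j
      rwa [mem_Ico] at h2
    have e1 : ∀ l j, a l j + r l j + W * t l j - a l j = r l j + W * t l j := by intro l j; ring
    have e2 : (fun l j => (a l j + r l j + W * t l j - a l j) % (W : ℤ)) = r := by
      funext l j
      rw [e1, Int.add_mul_emod_self_left, Int.emod_eq_of_lt (hr' l j).1 (hr' l j).2]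
    have e3 : (fun l j => (a l j + r l j + W * t l j - a l j) / (W : ℤ)) = t := by
      funext l j
      rw [e1, Int.add_mul_ediv_left _ _ hW'.ne', Int.ediv_eq_zero_of_lt (hr' l j).1 (hr' l j).2,
        zero_add]
    simp only [e2, e3]
  · intro c _
    funext l j
    simp only
    rw [add_assoc, Int.emod_add_mul_ediv, add_sub_cancel]
  · rintro ⟨r, t⟩ _
    rfl

end Pool.Agent.Run7.h416.PO
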